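import Pool.Agent.Lib.MP_af1a28_nt.Table1
import Pool.Agent.Lib.MP_af1a28_nt.Table2
import Pool.Agent.Lib.MP_af1a28_nt.Table3
import Pool.Agent.Lib.MP_af1a28_nt.Table4
import Pool.Agent.Lib.MP_af1a28_nt.Table5
import Pool.Agent.Lib.MP_af1a28_nt.Table6
import Pool.Agent.Lib.MP_af1a28_nt.Table7
import Pool.Agent.Lib.MP_af1a28_nt.Table8
import Pool.Agent.Lib.MP_af1a28_nt.Table9
import Pool.Agent.Lib.MP_af1a28_nt.Table10

/-! All bands. -/

namespace Pool.Agent.Lib.MP_af1a28_nt

/-- Thresholds and sizes. -/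
def bandList : List (ℕ × ℕ) :=
  [(12, 1), (26, 2), (33, 3), (41, 5), (58, 7), (65, 8), (73, 10), (82, 11), (92, 13), (103,
   15), (115, 18), (129, 19), (145, 20), (162, 24), (182, 28), (204, 31), (228, 36), (255,
   41), (286, 45), (320, 51), (359, 60), (402, 66), (450, 76), (505, 87), (565, 97), (633,
   108), (709, 124), (794, 137), (890, 152), (996, 168), (1116, 188), (1250, 209), (1400,
   235), (1568, 255), (1757, 284), (1967, 316), (2203, 354), (2468, 386), (2764, 430), (3096,
   474), (3468, 527), (3884, 578), (4350, 636), (4872, 714), (5457, 784), (6111, 858), (6845,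
   949), (7666, 1047), (8586, 1154), (10771, 1409), (12925, 1637), (15510, 1918), (18612,
   2233), (22335, 2591), (32162, 3519), (46314, 4721), (66692, 6352), (115244, 9798),
   (265057, 18623)]

lemma bandList_srt : srt 1 0 bandList = true := by decide +kernel

lemma bandList_low : lowSum 1000000000000 (brows 0 bandList) = 1214059301369 := by decide +kernel

lemma bandList_tot : totW (brows 0 bandList) = 18623 := by decide +kernel

lemma bandList_good : ∀ b ∈ bandList, Packs tbP b.1 b.2 := by
  simp only [bandList, List.forall_mem_cons]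
  exact ⟨pk0, pk1, pk2, pk3, pk4, pk5, pk6, pk7, pk8, pk9, pk10, pk11, pk12, pk13, pk14, pk15,
    pk16, pk17, pk18, pk19, pk20, pk21, pk22, pk23, pk24, pk25, pk26, pk27, pk28, pk29, pk30,
    pk31, pk32, pk33, pk34, pk35, pk36, pk37, pk38, pk39, pk40, pk41, pk42, pk43, pk44, pk45,
    pk46, pk47, pk48, pk49, pk50, pk51, pk52, pk53, pk54, pk55, pk56, pk57, pk58,
    List.forall_mem_nil _⟩

end Pool.Agent.Lib.MP_af1a28_nt
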