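import Pool.Agent.Lib.MP_af1a28_nt.Packing

/-! Scale dependent packings: for each cofactor r prime to P use the best packing that fits. -/

namespace Pool.Agent.Lib.MP_af1a28_nt

open Finset

/-- Elements of M of the form r s, with s dividing a power of P. -/
noncomputable def Mr (P : ℕ) (M : Finset ℕ) (r : ℕ) : Finset ℕ := by
  classical exact M.filter (fun k => ∃ s, s ∣ P ^ 40 ∧ 0 < s ∧ k = r * s)

/-- There are n pairwise disjoint good quadruples with entries at most x. -/
def Packs (P x n : ℕ) : Prop :=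
  ∃ T : List (ℕ × ℕ × ℕ × ℕ), dj (P ^ 40) T 0 = true ∧ T.length = n ∧
    T.all (fun q => Nat.ble q.2.2.2 x) = true

lemma pack_r {P x n : ℕ} (hp : Packs P x n) (N r : ℕ) (hrx : r * x ≤ N) (hr : 0 < r)
    (M : Finset ℕ)
    (hM : ∀ t, RowGood P t → r * t.2.2.2.2 ≤ N → ∃ s ∈ ents t, r * s ∈ M) :
    n ≤ (Mr P M r).card := by
  classical
  obtain ⟨T, hok, hlen, hx⟩ := hp
  obtain ⟨h1, h2⟩ := dj_spec P T 0 hok
  set tbl := T.map one with htbl
  have hlen' : tbl.length = n := by rw [htbl, List.length_map, hlen]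
  have hone : ∀ t ∈ tbl, t.1 = 1 := by
    intro t ht
    rw [htbl, List.mem_map] at ht
    obtain ⟨q, -, rfl⟩ := ht
    rfl
  have hd : ∀ t ∈ tbl, t.2.2.2.2 ≤ x := by
    intro t ht
    rw [htbl, List.mem_map] at ht
    obtain ⟨q, hq, rfl⟩ := ht
    have := List.all_eq_true.mp hx q hq
    rw [Nat.ble_eq] at this
    exact this
  have e0 : n = ∑ _j : Fin tbl.length, 1 := by simp [hlen']
  have e1 : ∑ _j : Fin tbl.length, 1 ≤ ∑ j : Fin tbl.length, ∑ k ∈ Mr P M r,
      (if ∃ s ∈ ents (tbl.get j), r * s = k then 1 else 0) := by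
    apply sum_le_sum
    intro j _
    have hj := List.get_mem tbl j
    have hg := h1 _ hj
    obtain ⟨s, hs, hsM⟩ := hM _ hg ((Nat.mul_le_mul_left _ (hd _ hj)).trans hrx)
    have hs0 : 0 < s := by
      obtain ⟨p1, p2, p3, p4, -⟩ := hg
      simp only [ents, List.mem_cons, List.not_mem_nil, or_false] at hs
      rcases hs with h | h | h | h <;> omega
    have hmem : r * s ∈ Mr P M r := by
      simp only [Mr, mem_filter]
      exact ⟨hsM, s, hg.2.2.2.2.2 s hs, hs0, rfl⟩
    calc 1 = (if ∃ u ∈ ents (tbl.get j), r * u = r * s then 1 else 0) := by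
          rw [if_pos ⟨s, hs, rfl⟩]
      _ ≤ _ := single_le_sum
          (f := fun k => if ∃ u ∈ ents (tbl.get j), r * u = k then 1 else 0)
          (fun _ _ => Nat.zero_le _) hmem
  rw [sum_comm] at e1
  have e2 : ∑ k ∈ Mr P M r, ∑ j : Fin tbl.length,
      (if ∃ s ∈ ents (tbl.get j), r * s = k then 1 else 0) ≤ ∑ _k ∈ Mr P M r, 1 := by
    apply sum_le_sum
    intro k hk
    simp only [Mr, mem_filter] at hk
    obtain ⟨-, s0, -, -, rfl⟩ := hk
    have h3 := h2 s0
    have h4 : wt tbl s0 ≤ 1 := by omega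
    refine le_trans ?_ h4
    rw [wt_eq]
    apply sum_le_sum
    intro j _
    rw [hone _ (List.get_mem tbl j)]
    by_cases hc : ∃ s ∈ ents (tbl.get j), r * s = r * s0
    · obtain ⟨s, hs, he⟩ := hc
      have : s = s0 := Nat.eq_of_mul_eq_mul_left hr he
      subst this
      rw [if_pos hs]
      split_ifs <;> simp
    · rw [if_neg hc]; exact Nat.zero_le _
  rw [sum_const, smul_eq_mul, mul_one] at e2
  omega

/-- Admissible cofactors up to N. -/
noncomputable def Rs (P N : ℕ) : Finset ℕ := (Finset.Icc 1 N).filter (fun r => Nat.Coprime P r)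

lemma sum_Mr (P N : ℕ) (M : Finset ℕ) : ∑ r ∈ Rs P N, (Mr P M r).card ≤ M.card := by
  classical
  rw [← card_biUnion]
  · apply card_le_card
    intro k hk
    rw [mem_biUnion] at hk
    obtain ⟨r, -, hr⟩ := hk
    simp only [Mr, mem_filter] at hr
    exact hr.1
  · intro r hr r' hr' hne
    change Disjoint (Mr P M r) (Mr P M r')
    rw [Finset.disjoint_left]
    intro k hk hk'
    simp only [Mr, mem_filter] at hk hk'
    obtain ⟨-, s, hs, hs0, rfl⟩ := hk
    obtain ⟨-, s', hs', -, he⟩ := hk'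
    simp only [Rs, mem_coe, mem_filter, mem_Icc] at hr hr'
    exact hne (smooth_unique hr.2 hr'.2 hs hs' hs0 he).2

/-- The contribution of one cofactor. -/
def bsum (N r : ℕ) : ℕ → List (ℕ × ℕ) → ℕ
  | _, [] => 0
  | pn, b :: bs => (if r * b.1 ≤ N then b.2 - pn else 0) + bsum N r b.2 bs

/-- Thresholds and sizes increase, thresholds are positive. -/
def srt : ℕ → ℕ → List (ℕ × ℕ) → Bool
  | _, _, [] => true
  | px, pn, b :: bs => Nat.ble px b.1 && (Nat.ble pn b.2 && srt b.1 b.2 bs)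

lemma bsum_zero (N r : ℕ) (bs : List (ℕ × ℕ)) (px pn : ℕ) (hs : srt px pn bs = true)
    (h : N < r * px) : bsum N r pn bs = 0 := by
  induction bs generalizing px pn with
  | nil => rfl
  | cons b bs ih =>
    simp only [srt, Bool.and_eq_true, Nat.ble_eq] at hs
    have h1 : N < r * b.1 := lt_of_lt_of_le h (Nat.mul_le_mul_left _ hs.1)
    simp only [bsum]
    rw [if_neg (by omega), ih b.1 b.2 hs.2.2 h1]

lemma bsum_le (N r m : ℕ) (bs : List (ℕ × ℕ)) (px pn : ℕ) (hs : srt px pn bs = true)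
    (hb : ∀ b ∈ bs, r * b.1 ≤ N → b.2 ≤ m) (hpn : pn ≤ m) : pn + bsum N r pn bs ≤ m := by
  induction bs generalizing px pn with
  | nil => simpa [bsum] using hpn
  | cons b bs ih =>
    simp only [srt, Bool.and_eq_true, Nat.ble_eq] at hs
    simp only [bsum]
    by_cases hc : r * b.1 ≤ N
    · rw [if_pos hc]
      have h1 := hb b List.mem_cons_self hc
      have := ih b.1 b.2 hs.2.2 (fun b' hb' => hb b' (List.mem_cons_of_mem _ hb')) h1
      omega
    · rw [if_neg hc, bsum_zero N r bs b.1 b.2 hs.2.2 (by omega)]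
      omega

/-- The bands as rows (difference of sizes, 0, 0, 0, threshold). -/
def brows : ℕ → List (ℕ × ℕ) → List (ℕ × ℕ × ℕ × ℕ × ℕ)
  | _, [] => []
  | pn, b :: bs => (b.2 - pn, 0, 0, 0, b.1) :: brows b.2 bs

lemma card_Rs (P N x : ℕ) (hP : 1 < P) (hx : 0 < x) :
    N / (x * P) * Nat.totient P ≤ ((Rs P N).filter (fun r => r * x ≤ N)).card := by
  classical
  let I : Finset (ℕ × ℕ) :=
    (range (N / (x * P))) ×ˢ ((range P).filter (fun a => Nat.Coprime P a))
  have hI : I.card = N / (x * P) * Nat.totient P := by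
    simp only [I, card_product, card_range, Nat.totient_eq_card_coprime]
  rw [← hI]
  apply card_le_card_of_injOn (fun i => i.1 * P + i.2)
  · intro i hi
    simp only [I, coe_product, Set.mem_prod, mem_coe, mem_range, mem_filter] at hi
    obtain ⟨h1, h2, h3⟩ := hi
    have hco : Nat.Coprime P (i.1 * P + i.2) := by
      have : Nat.Coprime P (i.2 + P * i.1) := by
        rw [Nat.coprime_add_mul_left_right]; exact h3
      simpa [add_comm, mul_comm] using this
    have h0 : 0 < i.1 * P + i.2 := by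
      rcases Nat.eq_zero_or_pos (i.1 * P + i.2) with h0 | h0
      · rw [h0, Nat.coprime_zero_right] at hco; omega
      · exact h0
    have h4 : i.1 * P + i.2 ≤ (i.1 + 1) * P := by nlinarith [h2]
    have h5 : (i.1 + 1) * (x * P) ≤ N := by
      have := Nat.div_mul_le_self N (x * P)
      exact le_trans (Nat.mul_le_mul_right _ h1) this
    have h6 : (i.1 * P + i.2) * x ≤ N := by
      calc (i.1 * P + i.2) * x ≤ ((i.1 + 1) * P) * x := Nat.mul_le_mul_right _ h4
        _ = (i.1 + 1) * (x * P) := by ring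
        _ ≤ N := h5
    simp only [Rs, mem_coe, mem_filter, mem_Icc]
    refine ⟨⟨⟨h0, ?_⟩, hco⟩, h6⟩
    exact le_trans (Nat.le_mul_of_pos_right _ hx) h6
  · intro i hi i' hi' he
    simp only [I, coe_product, Set.mem_prod, mem_coe, mem_range, mem_filter] at hi hi' he
    have hP0 : 0 < P := by omega
    have e1 : (i.1 * P + i.2) % P = i.2 := by
      rw [add_comm, Nat.add_mul_mod_self_right]; exact Nat.mod_eq_of_lt hi.2.1
    have e2 : (i'.1 * P + i'.2) % P = i'.2 := by
      rw [add_comm, Nat.add_mul_mod_self_right]; exact Nat.mod_eq_of_lt hi'.2.1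
    have e3 : i.2 = i'.2 := by rw [← e1, ← e2, he]
    have e4 : i.1 * P = i'.1 * P := by omega
    exact Prod.ext (Nat.eq_of_mul_eq_mul_right hP0 e4) e3

lemma sum_bsum (P N : ℕ) (hP : 1 < P) (bs : List (ℕ × ℕ)) (pn : ℕ)
    (hx : ∀ b ∈ bs, 0 < b.1) :
    ((brows pn bs).map (fun t => t.1 * (N / (t.2.2.2.2 * P) * Nat.totient P))).sum ≤
      ∑ r ∈ Rs P N, bsum N r pn bs := by
  induction bs generalizing pn with
  | nil => simp [brows]
  | cons b bs ih =>
    simp only [brows, List.map_cons, List.sum_cons, bsum]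
    rw [sum_add_distrib]
    refine add_le_add ?_ (ih b.2 (fun b' hb' => hx b' (List.mem_cons_of_mem _ hb')))
    rw [← sum_filter, sum_const, smul_eq_mul, mul_comm]
    exact Nat.mul_le_mul_right _ (card_Rs P N b.1 hP (hx b List.mem_cons_self))

/-- The bound from scale dependent packings. -/
theorem bands_bound (P L A B F : ℕ) (bs : List (ℕ × ℕ)) (hP : 1 < P) (hL : 0 < L)
    (hs : srt 1 0 bs = true) (hg : ∀ b ∈ bs, Packs P b.1 b.2)
    (hA : lowSum L (brows 0 bs) = A) (hB : totW (brows 0 bs) = B)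
    (hF : Nat.totient P = F) (N : ℕ) (S : Finset ℕ)
    (hS : S ⊆ (Finset.Icc 1 N).image (fun n => n ^ 3))
    (hSidon : ∀ a ∈ S, ∀ b ∈ S, ∀ c ∈ S, ∀ d ∈ S, a + b = c + d →
      (a = c ∧ b = d) ∨ (a = d ∧ b = c)) :
    (S.card : ℝ) ≤ (1 - (F : ℝ) * A / ((L : ℝ) * P)) * N + (F : ℝ) * B := by
  classical
  set M : Finset ℕ := (Finset.Icc 1 N).filter (fun n => n ^ 3 ∉ S) with hMdef
  have hcard : S.card + M.card ≤ N := by
    have h1 : S ⊆ ((Finset.Icc 1 N).filter (fun n => n ^ 3 ∈ S)).image (fun n => n ^ 3) := by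
      intro s hs
      obtain ⟨n, hn, rfl⟩ := Finset.mem_image.mp (hS hs)
      exact Finset.mem_image.mpr ⟨n, Finset.mem_filter.mpr ⟨hn, hs⟩, rfl⟩
    have h2 := (Finset.card_le_card h1).trans Finset.card_image_le
    have h3 := Finset.card_filter_add_card_filter_not (s := Finset.Icc 1 N) (fun n => n ^ 3 ∈ S)
    rw [Nat.card_Icc] at h3
    simp only [hMdef]
    omega
  have hpos : ∀ (l : List (ℕ × ℕ)) (px pn : ℕ), 0 < px → srt px pn l = true →
      ∀ b ∈ l, 0 < b.1 := by
    intro l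
    induction l with
    | nil => intro px pn _ _ b hb; simp at hb
    | cons c l ih =>
      intro px pn hpx h b hb
      simp only [srt, Bool.and_eq_true, Nat.ble_eq] at h
      rcases List.mem_cons.mp hb with rfl | hb
      · omega
      · exact ih c.1 c.2 (by omega) h.2.2 b hb
  have hbx := hpos bs 1 0 one_pos hs
  have hM : ∀ r, 0 < r → ∀ t, RowGood P t → r * t.2.2.2.2 ≤ N → ∃ s ∈ ents t, r * s ∈ M := by
    intro r hr t ht hrN
    obtain ⟨p1, p2, p3, p4, p5, -⟩ := ht
    by_contra hcon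
    push Not at hcon
    have hmem : ∀ x ∈ ents t, 0 < x → x ≤ t.2.2.2.2 → (r * x) ^ 3 ∈ S := by
      intro x hx hx0 hxd
      have h2 := hcon x hx
      by_contra h3
      apply h2
      simp only [hMdef, Finset.mem_filter, Finset.mem_Icc]
      exact ⟨⟨Nat.mul_pos hr hx0, le_trans (Nat.mul_le_mul_left _ hxd) hrN⟩, h3⟩
    have ha := hmem t.2.1 (by simp [ents]) (by omega) (by omega)
    have hb := hmem t.2.2.1 (by simp [ents]) (by omega) (by omega)
    have hc := hmem t.2.2.2.1 (by simp [ents]) (by omega) (by omega)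
    have hd := hmem t.2.2.2.2 (by simp [ents]) (by omega) (by omega)
    have heq : (r * t.2.1) ^ 3 + (r * t.2.2.2.2) ^ 3
        = (r * t.2.2.1) ^ 3 + (r * t.2.2.2.1) ^ 3 := by
      have : r ^ 3 * (t.2.1 ^ 3 + t.2.2.2.2 ^ 3) = r ^ 3 * (t.2.2.1 ^ 3 + t.2.2.2.1 ^ 3) := by
        rw [p5]
      nlinarith [this]
    have hinj : ∀ x y : ℕ, (r * x) ^ 3 = (r * y) ^ 3 → x = y := by
      intro x y hxy
      have := Nat.pow_left_injective (n := 3) (by norm_num) hxy
      exact Nat.eq_of_mul_eq_mul_left hr this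
    rcases hSidon _ ha _ hd _ hb _ hc heq with ⟨h4, -⟩ | ⟨h4, -⟩
    · have := hinj _ _ h4; omega
    · have := hinj _ _ h4; omega
  have hr : ∀ r ∈ Rs P N, bsum N r 0 bs ≤ (Mr P M r).card := by
    intro r hr
    simp only [Rs, mem_filter, mem_Icc] at hr
    have := bsum_le N r (Mr P M r).card bs 1 0 hs
      (fun b hb hrb => pack_r (hg b hb) N r hrb (by omega) M (hM r (by omega))) (Nat.zero_le _)
    omega
  have h1 : ((brows 0 bs).map (fun t => t.1 * (N / (t.2.2.2.2 * P) * Nat.totient P))).sum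
      ≤ M.card :=
    (sum_bsum P N hP bs 0 hbx).trans ((sum_le_sum hr).trans (sum_Mr P N M))
  have hh : ∀ t ∈ brows 0 bs, 0 < t.2.2.2.2 := by
    have gen : ∀ (l : List (ℕ × ℕ)) (pn : ℕ), (∀ b ∈ l, 0 < b.1) →
        ∀ t ∈ brows pn l, 0 < t.2.2.2.2 := by
      intro l
      induction l with
      | nil => intro pn _ t ht; simp [brows] at ht
      | cons c l ih =>
        intro pn hl t ht
        simp only [brows, List.mem_cons] at ht
        rcases ht with rfl | ht
        · exact hl c List.mem_cons_self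
        · exact ih c.2 (fun b hb => hl b (List.mem_cons_of_mem _ hb)) t ht
    exact gen bs 0 hbx
  have h2 := sum_low P L N (by omega) hL (brows 0 bs) hh
  rw [hA, hB, hF] at h2
  rw [hF] at h1
  have h3 : ((((brows 0 bs).map (fun t => t.1 * (N / (t.2.2.2.2 * P) * F))).sum : ℕ) : ℝ)
      ≤ ((M.card : ℕ) : ℝ) := by exact_mod_cast h1
  have h5 : (S.card : ℝ) + (M.card : ℝ) ≤ N := by exact_mod_cast hcard
  have h4 : (F : ℝ) * ((N : ℝ) * A / ((L : ℝ) * P) - B)
      = (F : ℝ) * A / ((L : ℝ) * P) * N - F * B := by ring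
  rw [h4] at h2
  nlinarith [h2, h3, h5]

end Pool.Agent.Lib.MP_af1a28_nt
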