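import Mathlib

/-! Weighted packings of dilated quadruples of equal sums of two cubes. -/

namespace Pool.Agent.Lib.MP_af1a28_nt

open Finset

/-- Two numbers dividing a power of P, with cofactors prime to P. -/
lemma smooth_unique {P r r' x x' : ℕ} (hr : Nat.Coprime P r) (hr' : Nat.Coprime P r')
    (hx : x ∣ P ^ 40) (hx' : x' ∣ P ^ 40) (hx0 : 0 < x) (h : r * x = r' * x') :
    x = x' ∧ r = r' := by
  have c1 : Nat.Coprime x r' := Nat.Coprime.coprime_dvd_left hx (Nat.Coprime.pow_left 40 hr')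
  have c2 : Nat.Coprime x' r := Nat.Coprime.coprime_dvd_left hx' (Nat.Coprime.pow_left 40 hr)
  have d1 : x ∣ x' := by
    apply c1.dvd_of_dvd_mul_left
    rw [← h]; exact Dvd.intro_left r rfl
  have d2 : x' ∣ x := by
    apply c2.dvd_of_dvd_mul_left
    rw [h]; exact Dvd.intro_left r' rfl
  have e : x = x' := Nat.dvd_antisymm d1 d2
  subst e
  exact ⟨rfl, Nat.eq_of_mul_eq_mul_right hx0 h⟩

/-- The weighted double count. -/
lemma double_count {ι : Type*} [DecidableEq ι] (J : Finset ι) (w : ι → ℕ) (K : ι → Finset ℕ)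
    (h : ι → ℕ) (P W N : ℕ) (M : Finset ℕ) (hP : 1 < P)
    (hM : ∀ j ∈ J, ∀ r, 0 < r → Nat.Coprime P r → r * h j ≤ N → ∃ x ∈ K j, r * x ∈ M)
    (hsm : ∀ j ∈ J, ∀ x ∈ K j, x ∣ P ^ 40 ∧ 0 < x)
    (hW : ∀ x, ∑ j ∈ J with x ∈ K j, w j ≤ W) :
    ∑ j ∈ J, w j * (N / (h j * P) * Nat.totient P) ≤ W * M.card := by
  classical
  let I : ι → Finset (ℕ × ℕ) := fun j =>
    (range (N / (h j * P))) ×ˢ ((range P).filter (fun a => Nat.Coprime P a))
  let r : ℕ × ℕ → ℕ := fun i => i.1 * P + i.2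
  have hIcard : ∀ j, (I j).card = N / (h j * P) * Nat.totient P := by
    intro j
    simp only [I, card_product, card_range, Nat.totient_eq_card_coprime]
  have hrI : ∀ j ∈ J, ∀ i ∈ I j, 0 < r i ∧ Nat.Coprime P (r i) ∧ r i * h j ≤ N := by
    intro j hj i hi
    simp only [I, mem_product, mem_range, mem_filter] at hi
    obtain ⟨h1, h2, h3⟩ := hi
    have hco : Nat.Coprime P (r i) := by
      have : Nat.Coprime P (i.2 + P * i.1) := by
        rw [Nat.coprime_add_mul_left_right]; exact h3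
      simpa [r, add_comm, mul_comm] using this
    refine ⟨?_, hco, ?_⟩
    · rcases Nat.eq_zero_or_pos (r i) with h0 | h0
      · rw [h0, Nat.coprime_zero_right] at hco; omega
      · exact h0
    · have h4 : r i ≤ (i.1 + 1) * P := by
        simp only [r]; nlinarith [h2]
      have h5 : (i.1 + 1) * (h j * P) ≤ N := by
        have := Nat.div_mul_le_self N (h j * P)
        exact le_trans (Nat.mul_le_mul_right _ h1) this
      calc r i * h j ≤ ((i.1 + 1) * P) * h j := Nat.mul_le_mul_right _ h4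
        _ = (i.1 + 1) * (h j * P) := by ring
        _ ≤ N := h5
  have hrinj : ∀ j j', ∀ i ∈ I j, ∀ i' ∈ I j', r i = r i' → i = i' := by
    intro j j' i hi i' hi' he
    simp only [I, mem_product, mem_range, mem_filter] at hi hi'
    have hP0 : 0 < P := by omega
    have e1 : (r i) % P = i.2 := by
      simp only [r]; rw [add_comm, Nat.add_mul_mod_self_right]; exact Nat.mod_eq_of_lt hi.2.1
    have e2 : (r i') % P = i'.2 := by
      simp only [r]; rw [add_comm, Nat.add_mul_mod_self_right]; exact Nat.mod_eq_of_lt hi'.2.1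
    have e3 : i.2 = i'.2 := by rw [← e1, ← e2, he]
    have e4 : i.1 * P = i'.1 * P := by
      simp only [r] at he; omega
    exact Prod.ext (Nat.eq_of_mul_eq_mul_right hP0 e4) e3
  have step1 : ∑ j ∈ J, w j * (N / (h j * P) * Nat.totient P)
      ≤ ∑ j ∈ J, ∑ i ∈ I j, ∑ n ∈ M, (if ∃ x ∈ K j, r i * x = n then w j else 0) := by
    apply sum_le_sum
    intro j hj
    rw [← hIcard j, mul_comm, ← smul_eq_mul, ← sum_const]
    apply sum_le_sum
    intro i hi
    obtain ⟨h1, h2, h3⟩ := hrI j hj i hi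
    obtain ⟨x, hx, hxM⟩ := hM j hj (r i) h1 h2 h3
    calc w j = (if ∃ y ∈ K j, r i * y = r i * x then w j else 0) := by
          rw [if_pos ⟨x, hx, rfl⟩]
      _ ≤ _ := single_le_sum (f := fun n => if ∃ y ∈ K j, r i * y = n then w j else 0)
          (fun _ _ => Nat.zero_le _) hxM
  refine le_trans step1 ?_
  have step2 : ∑ j ∈ J, ∑ i ∈ I j, ∑ n ∈ M, (if ∃ x ∈ K j, r i * x = n then w j else 0)
      = ∑ n ∈ M, ∑ j ∈ J, ∑ i ∈ I j, (if ∃ x ∈ K j, r i * x = n then w j else 0) := by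
    rw [sum_comm' (s := M) (t := fun _ => J) (s' := fun _ => M) (t' := J) (by simp [and_comm])]
    apply sum_congr rfl
    intro j _
    rw [sum_comm]
  rw [step2, mul_comm W, ← smul_eq_mul, ← sum_const]
  apply sum_le_sum
  intro n _
  by_cases hex : ∃ j ∈ J, ∃ i ∈ I j, ∃ x ∈ K j, r i * x = n
  · obtain ⟨j0, hj0, i0, hi0, x0, hx0, he0⟩ := hex
    refine le_trans ?_ (hW x0)
    rw [sum_filter]
    apply sum_le_sum
    intro j hj
    have key : ∀ i ∈ I j, (∃ x ∈ K j, r i * x = n) → i = i0 ∧ x0 ∈ K j := by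
      rintro i hi ⟨x, hx, he⟩
      obtain ⟨-, c1, -⟩ := hrI j hj i hi
      obtain ⟨-, c2, -⟩ := hrI j0 hj0 i0 hi0
      obtain ⟨u1, u2⟩ := smooth_unique c1 c2 (hsm j hj x hx).1 (hsm j0 hj0 x0 hx0).1
        (hsm j hj x hx).2 (he.trans he0.symm)
      exact ⟨hrinj j j0 i hi i0 hi0 u2, u1 ▸ hx⟩
    by_cases hxj : x0 ∈ K j
    · rw [if_pos hxj]
      calc ∑ i ∈ I j, (if ∃ x ∈ K j, r i * x = n then w j else 0)
          ≤ ∑ i ∈ I j, (if i = i0 then w j else 0) := by
            apply sum_le_sum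
            intro i hi
            by_cases hc : ∃ x ∈ K j, r i * x = n
            · rw [if_pos hc, if_pos (key i hi hc).1]
            · rw [if_neg hc]; exact Nat.zero_le _
        _ ≤ w j := by
            rw [sum_ite_eq']
            split_ifs <;> simp
    · rw [if_neg hxj]
      apply le_of_eq
      apply sum_eq_zero
      intro i hi
      rw [if_neg]
      intro hc
      exact hxj (key i hi hc).2
  · push Not at hex
    rw [sum_eq_zero]
    · exact Nat.zero_le _
    · intro j hj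
      apply sum_eq_zero
      intro i hi
      rw [if_neg]
      rintro ⟨x, hx, he⟩
      exact hex j hj i hi x hx he

/-- Entries of a row. -/
def ents (t : ℕ × ℕ × ℕ × ℕ × ℕ) : List ℕ := [t.2.1, t.2.2.1, t.2.2.2.1, t.2.2.2.2]

/-- One row is good: a < b <= c < d, a taxicab identity, entries dividing a power of P. -/
def RowGood (P : ℕ) (t : ℕ × ℕ × ℕ × ℕ × ℕ) : Prop :=
  0 < t.2.1 ∧ t.2.1 < t.2.2.1 ∧ t.2.2.1 ≤ t.2.2.2.1 ∧ t.2.2.2.1 < t.2.2.2.2 ∧
  t.2.1 ^ 3 + t.2.2.2.2 ^ 3 = t.2.2.1 ^ 3 + t.2.2.2.1 ^ 3 ∧ ∀ x ∈ ents t, x ∣ P ^ 40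

/-- Total weight at x. -/
def wt (tbl : List (ℕ × ℕ × ℕ × ℕ × ℕ)) (x : ℕ) : ℕ :=
  tbl.foldr (fun t s => if (ents t).elem x then t.1 + s else s) 0

lemma wt_eq (tbl : List (ℕ × ℕ × ℕ × ℕ × ℕ)) (x : ℕ) :
    wt tbl x = ∑ j : Fin tbl.length, if x ∈ ents (tbl.get j) then (tbl.get j).1 else 0 := by
  induction tbl with
  | nil => simp [wt]
  | cons t l ih =>
    have h2 := Fin.sum_univ_succ (n := l.length)
      (fun j => if x ∈ ents ((t :: l).get j) then ((t :: l).get j).1 else 0)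
    refine Eq.trans ?_ h2.symm
    have : wt (t :: l) x = (if x ∈ ents t then t.1 else 0) + wt l x := by
      simp only [wt, List.foldr_cons, List.elem_iff]
      split_ifs <;> simp
    rw [this, ih]
    rfl

/-- Sum of w * floor(L / h) over the table. -/
def lowSum (L : ℕ) (tbl : List (ℕ × ℕ × ℕ × ℕ × ℕ)) : ℕ :=
  (tbl.map (fun t => t.1 * (L / t.2.2.2.2))).sum

/-- The bound from a good table. -/
theorem table_bound (P W : ℕ) (tbl : List (ℕ × ℕ × ℕ × ℕ × ℕ)) (hP : 1 < P)
    (hok : ∀ t ∈ tbl, RowGood P t) (hwt : ∀ x, wt tbl x ≤ W) (N : ℕ) (S : Finset ℕ)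
    (hS : S ⊆ (Finset.Icc 1 N).image (fun n => n ^ 3))
    (hSidon : ∀ a ∈ S, ∀ b ∈ S, ∀ c ∈ S, ∀ d ∈ S, a + b = c + d →
      (a = c ∧ b = d) ∨ (a = d ∧ b = c)) :
    ((tbl.map (fun t => t.1 * (N / (t.2.2.2.2 * P) * Nat.totient P))).sum) + W * S.card
      ≤ W * N := by
  classical
  set M : Finset ℕ := (Finset.Icc 1 N).filter (fun n => n ^ 3 ∉ S) with hMdef
  have hcard : S.card + M.card ≤ N := by
    have h1 : S ⊆ ((Finset.Icc 1 N).filter (fun n => n ^ 3 ∈ S)).image (fun n => n ^ 3) := by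
      intro s hs
      obtain ⟨n, hn, rfl⟩ := Finset.mem_image.mp (hS hs)
      exact Finset.mem_image.mpr ⟨n, Finset.mem_filter.mpr ⟨hn, hs⟩, rfl⟩
    have h2 := (Finset.card_le_card h1).trans Finset.card_image_le
    have h3 := Finset.card_filter_add_card_filter_not (s := Finset.Icc 1 N) (fun n => n ^ 3 ∈ S)
    rw [Nat.card_Icc] at h3
    simp only [hMdef]
    omega
  have hdc := double_count (ι := Fin tbl.length) Finset.univ (fun j => (tbl.get j).1)
    (fun j => (ents (tbl.get j)).toFinset) (fun j => (tbl.get j).2.2.2.2) P W N M hP ?_ ?_ ?_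
  · have hsum : ∑ j : Fin tbl.length, (tbl.get j).1 *
        (N / ((tbl.get j).2.2.2.2 * P) * Nat.totient P)
        = (tbl.map (fun t => t.1 * (N / (t.2.2.2.2 * P) * Nat.totient P))).sum := by
      rw [← List.sum_ofFn]
      congr 1
      conv_rhs => rw [← List.ofFn_get tbl]
      rw [List.map_ofFn]
      rfl
    rw [hsum] at hdc
    have : W * M.card + W * S.card ≤ W * N := by
      rw [← mul_add]; exact Nat.mul_le_mul_left _ (by omega)
    omega
  · intro j _ r hr hco hrN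
    obtain ⟨p1, p2, p3, p4, p5, -⟩ := hok (tbl.get j) (List.get_mem tbl j)
    set a := (tbl.get j).2.1
    set b := (tbl.get j).2.2.1
    set c := (tbl.get j).2.2.2.1
    set d := (tbl.get j).2.2.2.2
    by_contra hcon
    push Not at hcon
    have hmem : ∀ x ∈ ({a, b, c, d} : Finset ℕ), 0 < x → x ≤ d → (r * x) ^ 3 ∈ S := by
      intro x hx hx0 hxd
      have hx' : x ∈ (ents (tbl.get j)).toFinset := by
        simp only [Finset.mem_insert, Finset.mem_singleton] at hx
        simp only [ents, List.mem_toFinset, List.mem_cons, List.not_mem_nil, or_false]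
        exact hx
      have h2 := hcon x hx'
      by_contra h3
      apply h2
      simp only [hMdef, Finset.mem_filter, Finset.mem_Icc]
      refine ⟨⟨Nat.mul_pos hr hx0, le_trans (Nat.mul_le_mul_left _ hxd) hrN⟩, h3⟩
    have ha := hmem a (by simp) (by omega) (by omega)
    have hb := hmem b (by simp) (by omega) (by omega)
    have hc := hmem c (by simp) (by omega) (by omega)
    have hd := hmem d (by simp) (by omega) (by omega)
    have heq : (r * a) ^ 3 + (r * d) ^ 3 = (r * b) ^ 3 + (r * c) ^ 3 := by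
      have : r ^ 3 * (a ^ 3 + d ^ 3) = r ^ 3 * (b ^ 3 + c ^ 3) := by rw [p5]
      nlinarith [this]
    have hinj : ∀ x y : ℕ, (r * x) ^ 3 = (r * y) ^ 3 → x = y := by
      intro x y hxy
      have := Nat.pow_left_injective (n := 3) (by norm_num) hxy
      exact Nat.eq_of_mul_eq_mul_left hr this
    rcases hSidon _ ha _ hd _ hb _ hc heq with ⟨h4, -⟩ | ⟨h4, -⟩
    · have := hinj _ _ h4; omega
    · have := hinj _ _ h4; omega
  · intro j _ x hx
    obtain ⟨p1, p2, p3, p4, p5, p6⟩ := hok (tbl.get j) (List.get_mem tbl j)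
    rw [List.mem_toFinset] at hx
    refine ⟨p6 x hx, ?_⟩
    simp only [ents, List.mem_cons, List.not_mem_nil, or_false] at hx
    rcases hx with h | h | h | h <;> omega
  · intro x
    rw [Finset.sum_filter]
    have e : ∑ j : Fin tbl.length, (if x ∈ (ents (tbl.get j)).toFinset then (tbl.get j).1 else 0)
        = wt tbl x := by
      rw [wt_eq]
      apply Finset.sum_congr rfl
      intro j _
      simp only [List.mem_toFinset]
    rw [e]
    exact hwt x

/-- Total weight of the table. -/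
def totW (tbl : List (ℕ × ℕ × ℕ × ℕ × ℕ)) : ℕ := (tbl.map (fun t => t.1)).sum

lemma sum_low (P L N : ℕ) (hP : 0 < P) (hL : 0 < L) (tbl : List (ℕ × ℕ × ℕ × ℕ × ℕ))
    (hh : ∀ t ∈ tbl, 0 < t.2.2.2.2) :
    (Nat.totient P : ℝ) * ((N : ℝ) * (lowSum L tbl : ℝ) / ((L : ℝ) * P) - (totW tbl : ℝ)) ≤
      (((tbl.map (fun t => t.1 * (N / (t.2.2.2.2 * P) * Nat.totient P))).sum : ℕ) : ℝ) := by
  induction tbl with
  | nil => simp [lowSum, totW]
  | cons t l ih =>
    have ih' := ih (fun u hu => hh u (List.mem_cons_of_mem _ hu))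
    have ht := hh t List.mem_cons_self
    simp only [lowSum, totW, List.map_cons, List.sum_cons] at ih' ⊢
    push_cast at ih' ⊢
    set h := t.2.2.2.2
    have hPr : (0 : ℝ) < P := by exact_mod_cast hP
    have hLr : (0 : ℝ) < L := by exact_mod_cast hL
    have hhr : (0 : ℝ) < h := by exact_mod_cast ht
    have e1 : (N : ℝ) / ((h : ℝ) * P) < ((N / (h * P) : ℕ) : ℝ) + 1 := by
      have := Nat.lt_floor_add_one ((N : ℝ) / ((h * P : ℕ) : ℝ))
      rw [Nat.floor_div_eq_div] at this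
      push_cast at this ⊢
      exact this
    have e2 : (((L / h : ℕ)) : ℝ) ≤ (L : ℝ) / h := Nat.cast_div_le
    have e3 : (N : ℝ) * ((L / h : ℕ) : ℝ) / ((L : ℝ) * P) ≤ (N : ℝ) / ((h : ℝ) * P) := by
      rw [div_le_div_iff₀ (by positivity) (by positivity)]
      have : ((L / h : ℕ) : ℝ) * h ≤ L := by
        rw [le_div_iff₀ hhr] at e2; exact e2
      have hN : (0 : ℝ) ≤ N := Nat.cast_nonneg _
      have := mul_le_mul_of_nonneg_left this (mul_nonneg hN hPr.le)
      nlinarith [this]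
    have e4 : (N : ℝ) * ((L / h : ℕ) : ℝ) / ((L : ℝ) * P) - 1 ≤ ((N / (h * P) : ℕ) : ℝ) := by
      linarith
    have hw : (0 : ℝ) ≤ (t.1 : ℝ) * (Nat.totient P : ℝ) := by positivity
    have e5 := mul_le_mul_of_nonneg_left e4 hw
    have e6 : (Nat.totient P : ℝ) * ((N : ℝ) * ((t.1 : ℝ) * ((L / h : ℕ) : ℝ) +
        ((l.map (fun t => t.1 * (L / t.2.2.2.2))).sum : ℕ)) / ((L : ℝ) * P) -
        ((t.1 : ℝ) + ((l.map (fun t => t.1)).sum : ℕ)))
        = (t.1 : ℝ) * (Nat.totient P : ℝ) *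
            ((N : ℝ) * ((L / h : ℕ) : ℝ) / ((L : ℝ) * P) - 1)
          + (Nat.totient P : ℝ) * ((N : ℝ) *
            ((l.map (fun t => t.1 * (L / t.2.2.2.2))).sum : ℕ) / ((L : ℝ) * P) -
            ((l.map (fun t => t.1)).sum : ℕ)) := by
      field_simp
      ring
    push_cast at e6
    rw [e6]
    have e7 : (t.1 : ℝ) * (((N / (h * P) : ℕ) : ℝ) * (Nat.totient P : ℝ))
        = (t.1 : ℝ) * (Nat.totient P : ℝ) * ((N / (h * P) : ℕ) : ℝ) := by ring
    rw [e7]
    exact add_le_add e5 ih'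

/-- The bound with real constants. -/
theorem real_bound (P W L A B F : ℕ) (tbl : List (ℕ × ℕ × ℕ × ℕ × ℕ)) (hP : 1 < P)
    (hL : 0 < L) (hok : ∀ t ∈ tbl, RowGood P t) (hwt : ∀ x, wt tbl x ≤ W) (hA : lowSum L tbl = A)
    (hB : totW tbl = B) (hF : Nat.totient P = F) (N : ℕ) (S : Finset ℕ)
    (hS : S ⊆ (Finset.Icc 1 N).image (fun n => n ^ 3))
    (hSidon : ∀ a ∈ S, ∀ b ∈ S, ∀ c ∈ S, ∀ d ∈ S, a + b = c + d →
      (a = c ∧ b = d) ∨ (a = d ∧ b = c)) :
    (W : ℝ) * (S.card : ℝ) ≤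
      ((W : ℝ) - (F : ℝ) * A / ((L : ℝ) * P)) * N + (F : ℝ) * B := by
  have h1 := table_bound P W tbl hP hok hwt N S hS hSidon
  have hh : ∀ t ∈ tbl, 0 < t.2.2.2.2 := by
    intro t ht
    obtain ⟨p1, p2, p3, p4, -⟩ := hok t ht
    omega
  have h2 := sum_low P L N (by omega) hL tbl hh
  rw [hA, hB, hF] at h2
  rw [hF] at h1
  have h3 : ((((tbl.map (fun t => t.1 * (N / (t.2.2.2.2 * P) * F))).sum + W * S.card : ℕ)) : ℝ)
      ≤ ((W * N : ℕ) : ℝ) := by exact_mod_cast h1
  rw [Nat.cast_add] at h3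
  push_cast at h3 h2
  have h4 : (F : ℝ) * ((N : ℝ) * A / ((L : ℝ) * P) - B)
      = (F : ℝ) * A / ((L : ℝ) * P) * N - F * B := by ring
  rw [h4] at h2
  nlinarith [h2, h3]

/-- Bit mask of a quadruple. -/
def msk : ℕ × ℕ × ℕ × ℕ → ℕ
  | (a, b, c, d) => Nat.lor (Nat.lor (2 ^ a) (2 ^ b)) (Nat.lor (2 ^ c) (2 ^ d))

/-- Check of one quadruple; PP is a power of P. -/
def rowC (PP : ℕ) : ℕ × ℕ × ℕ × ℕ → Bool
  | (a, b, c, d) => Nat.ble 1 a && (Nat.ble (a + 1) b && (Nat.ble (b + 1) c &&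
      (Nat.ble (c + 1) d && (Nat.beq (a ^ 3 + d ^ 3) (b ^ 3 + c ^ 3) && (Nat.beq (PP % a) 0 &&
      (Nat.beq (PP % b) 0 && (Nat.beq (PP % c) 0 && Nat.beq (PP % d) 0)))))))

/-- Check of a list of pairwise disjoint quadruples, acc = mask of the numbers used before. -/
def dj (PP : ℕ) : List (ℕ × ℕ × ℕ × ℕ) → ℕ → Bool
  | [], _ => true
  | q :: l, acc => rowC PP q && (Nat.beq (Nat.land acc (msk q)) 0 &&
      dj PP l (Nat.lor acc (msk q)))

/-- Add weight one. -/
def one (q : ℕ × ℕ × ℕ × ℕ) : ℕ × ℕ × ℕ × ℕ × ℕ := (1, q)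

lemma testBit_msk (q : ℕ × ℕ × ℕ × ℕ) (x : ℕ) :
    (msk q).testBit x = decide (x ∈ ents (one q)) := by
  obtain ⟨a, b, c, d⟩ := q
  have h : msk (a, b, c, d) = (2 ^ a ||| 2 ^ b) ||| (2 ^ c ||| 2 ^ d) := rfl
  rw [h]
  simp only [Nat.testBit_or, Nat.testBit_two_pow, ents, one, List.mem_cons, List.not_mem_nil,
    or_false, Bool.decide_or]
  simp only [eq_comm (a := x)]
  rw [Bool.or_assoc]

lemma rowC_good {P : ℕ} {q : ℕ × ℕ × ℕ × ℕ} (h : rowC (P ^ 40) q = true) :
    RowGood P (one q) := by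
  obtain ⟨a, b, c, d⟩ := q
  simp only [rowC, Bool.and_eq_true, Nat.ble_eq, Nat.beq_eq] at h
  obtain ⟨h1, h2, h3, h4, h5, h6, h7, h8, h9⟩ := h
  refine ⟨by simp only [one]; omega, by simpa [one] using h2, by simp only [one]; omega,
    by simpa [one] using h4, by simpa [one] using h5, ?_⟩
  intro x hx
  simp only [ents, one, List.mem_cons, List.not_mem_nil, or_false] at hx
  rcases hx with rfl | rfl | rfl | rfl
  · exact Nat.dvd_of_mod_eq_zero h6
  · exact Nat.dvd_of_mod_eq_zero h7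
  · exact Nat.dvd_of_mod_eq_zero h8
  · exact Nat.dvd_of_mod_eq_zero h9

lemma bool_key (u v : Bool) (n : ℕ) (h : false = (u && v))
    (h2 : n + (if (u || v) = true then 1 else 0) ≤ 1) :
    ((if v = true then 1 else 0) + n) + (if u = true then 1 else 0) ≤ 1 := by
  cases u <;> cases v <;> simp at h h2 ⊢ <;> omega

lemma dj_spec (P : ℕ) (l : List (ℕ × ℕ × ℕ × ℕ)) (acc : ℕ) (h : dj (P ^ 40) l acc = true) :
    (∀ t ∈ l.map one, RowGood P t) ∧
      ∀ x, wt (l.map one) x + (if acc.testBit x then 1 else 0) ≤ 1 := by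
  induction l generalizing acc with
  | nil =>
    refine ⟨by simp, fun x => ?_⟩
    simp only [List.map_nil, wt, List.foldr_nil]
    split_ifs <;> simp
  | cons q l ih =>
    simp only [dj, Bool.and_eq_true, Nat.beq_eq] at h
    obtain ⟨h1, h2, h3⟩ := h
    obtain ⟨i1, i2⟩ := ih _ h3
    refine ⟨?_, fun x => ?_⟩
    · intro t ht
      rw [List.map_cons, List.mem_cons] at ht
      rcases ht with rfl | ht
      · exact rowC_good h1
      · exact i1 t ht
    · have i3 := i2 x
      have e1 : (Nat.lor acc (msk q)).testBit x = (acc.testBit x || (msk q).testBit x) :=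
        Nat.testBit_or acc (msk q) x
      have e2 : (Nat.land acc (msk q)).testBit x = (acc.testBit x && (msk q).testBit x) :=
        Nat.testBit_and acc (msk q) x
      rw [h2, Nat.zero_testBit] at e2
      rw [e1] at i3
      have e3 : wt ((q :: l).map one) x
          = (if (msk q).testBit x then 1 else 0) + wt (l.map one) x := by
        rw [testBit_msk]
        simp only [wt, List.map_cons, List.foldr_cons, List.elem_iff, decide_eq_true_eq, one]
        split_ifs <;> simp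
      rw [e3]
      exact bool_key _ _ _ e2 i3

/-- The bound from a list of disjoint quadruples. -/
theorem disjoint_bound (P L A B F : ℕ) (l : List (ℕ × ℕ × ℕ × ℕ)) (hP : 1 < P)
    (hL : 0 < L) (hok : dj (P ^ 40) l 0 = true) (hA : lowSum L (l.map one) = A)
    (hB : l.length = B) (hF : Nat.totient P = F) (N : ℕ) (S : Finset ℕ)
    (hS : S ⊆ (Finset.Icc 1 N).image (fun n => n ^ 3))
    (hSidon : ∀ a ∈ S, ∀ b ∈ S, ∀ c ∈ S, ∀ d ∈ S, a + b = c + d →
      (a = c ∧ b = d) ∨ (a = d ∧ b = c)) :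
    (S.card : ℝ) ≤ (1 - (F : ℝ) * A / ((L : ℝ) * P)) * N + (F : ℝ) * B := by
  obtain ⟨h1, h2⟩ := dj_spec P l 0 hok
  have hB' : totW (l.map one) = B := by
    rw [← hB]
    simp [totW, one, Function.comp_def]
  have := real_bound P 1 L A B F (l.map one) hP hL h1 (fun x => by have := h2 x; simp at this; omega)
    hA hB' hF N S hS hSidon
  simpa using this

/-- Decode n rows of four numbers below 2 ^ 20 from one number. -/
def dec : ℕ → ℕ → List (ℕ × ℕ × ℕ × ℕ)
  | 0, _ => []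
  | n + 1, v => (v % 1048576, v / 1048576 % 1048576, v / 1099511627776 % 1048576,
      v / 1152921504606846976 % 1048576) :: dec n (v / 1208925819614629174706176)

lemma totient_list (l : List ℕ) (hp : ∀ p ∈ l, p.Prime) (hn : l.Nodup) :
    Nat.totient l.prod = (l.map (fun p => p - 1)).prod := by
  induction l with
  | nil => simp
  | cons p l ih =>
    rw [List.nodup_cons] at hn
    have hpp : p.Prime := hp p List.mem_cons_self
    have hco : Nat.Coprime p l.prod := by
      rw [Nat.coprime_list_prod_right_iff]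
      intro q hq
      exact (Nat.coprime_primes hpp (hp q (List.mem_cons_of_mem _ hq))).mpr
        (fun h => hn.1 (h ▸ hq))
    rw [List.prod_cons, Nat.totient_mul hco, ih (fun q hq => hp q (List.mem_cons_of_mem _ hq)) hn.2,
      Nat.totient_prime hpp, List.map_cons, List.prod_cons]

/-- trial division -/
def isP (p : ℕ) : Bool := Nat.ble 2 p && (List.range p).all (fun m => Nat.ble m 1 || !Nat.beq (p % m) 0)

lemma isP_prime {p : ℕ} (h : isP p = true) : p.Prime := by
  simp only [isP, Bool.and_eq_true, Nat.ble_eq, List.all_eq_true, List.mem_range, Bool.or_eq_true,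
    Bool.not_eq_true'] at h
  rw [Nat.prime_def_lt']
  refine ⟨h.1, fun m hm hmp hd => ?_⟩
  rcases h.2 m hmp with h2 | h2
  · omega
  · rw [Nat.mod_eq_zero_of_dvd hd] at h2
    exact absurd h2 (by decide)

/-- An eventual bound from an explicit one. -/
lemma eventually_bound (c c' C : ℝ) (h : c < c') :
    ∀ᶠ N : ℕ in Filter.atTop, c * N + C ≤ c' * N := by
  filter_upwards [Filter.eventually_ge_atTop ⌈C / (c' - c)⌉₊] with N hN
  have h1 : C / (c' - c) ≤ N := (Nat.le_ceil _).trans (by exact_mod_cast hN)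
  rw [div_le_iff₀ (by linarith)] at h1
  nlinarith

end Pool.Agent.Lib.MP_af1a28_nt
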